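import Pool.Agent.Lib.MP_b1a3a4_al.MVS.HO.Iface

/-!
# EXT (10.5): scale extension
-/

set_option linter.all false

namespace Pool.Agent.Lib.MP_b1a3a4_al.MVS.HO.H68

open Pool.Agent.Lib.MP_b1a3a4_al.MVS.HO Pool.Agent.Lib.MP_b1a3a4_al.MVS

theorem ext (h1 : CarrStatement) : ExtStatement := by
  intro G _ E hE E₁ hE₁
  have hword : ∀ g : G, ∃ w : List G, (∀ x ∈ w, x ∈ E) ∧ w.prod = g ∧ (g ∈ E → w = [g]) := by
    intro g
    by_cases hg : g ∈ E
    · exact ⟨[g], by simpa using hg, by simp, fun _ => rfl⟩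
    · obtain ⟨w, hw, hp⟩ := hE.conn g
      exact ⟨w, hw, hp, fun h => absurd h hg⟩
  choose w hw hwp hwE using hword
  have hcar : ∀ p : G × G, ∃ F : Set G, F.Finite ∧
      SameHol E F 1 (w p.1 ++ w p.2) (w (p.1 * p.2)) := by
    intro p
    obtain ⟨F, hF, -, hFs⟩ := h1 G E Set.univ 1 (w p.1 ++ w p.2) (w (p.1 * p.2))
      (hE.sameHol (by
        intro x hx
        rcases List.mem_append.1 hx with hx | hx
        · exact hw _ x hx
        · exact hw _ x hx) (hw _) (by rw [List.prod_append, hwp, hwp, hwp]))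
    exact ⟨F, hF, hFs⟩
  choose F hF hFs using hcar
  refine ⟨{1} ∪ ⋃ p ∈ E₁ ×ˢ E₁, F p, (Set.finite_singleton 1).union
    ((hE₁.prod hE₁).biUnion fun p _ => hF p), Or.inl rfl, ?_⟩
  intro Z H _ c hc
  refine ⟨fun g h => hol c g (w (g⁻¹ * h)), ?_, ?_⟩
  · intro g hg h hh k hk hgh hhk hgk
    show hol c g (w (g⁻¹ * h)) * hol c h (w (h⁻¹ * k)) = hol c g (w (g⁻¹ * k))
    have h2 := (hFs (g⁻¹ * h, h⁻¹ * k)).translate (Z' := Z) g (fun x hx => hg x (Or.inr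
      (Set.mem_biUnion (x := (g⁻¹ * h, h⁻¹ * k)) (Set.mk_mem_prod hgh hhk) hx))) H c hc
    rw [hol_append, mul_one, hwp] at h2
    have e1 : g * (g⁻¹ * h) = h := by simp
    have e2 : g⁻¹ * h * (h⁻¹ * k) = g⁻¹ * k := by group
    simp only at h2
    rw [e1, e2] at h2
    exact h2
  · intro g h hg hh hgh
    show hol c g (w (g⁻¹ * h)) = c g h
    rw [hwE _ hgh, hol_cons, hol_nil, mul_one, mul_inv_cancel_left]

end Pool.Agent.Lib.MP_b1a3a4_al.MVS.HO.H68
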