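import Pool.Agent.Lib.MP_b1a3a4_al.MVS.HO.H68.Scale

/-!
# FPR (10.3): finitely presented groups satisfy `FPres`
-/

set_option linter.all false

namespace Pool.Agent.Lib.MP_b1a3a4_al.MVS.HO.H68

open Pool.Agent.Lib.MP_b1a3a4_al.MVS.HO Pool.Agent.Lib.MP_b1a3a4_al.MVS
open scoped Pointwise

section fpr

variable {G : Type} [Group G] {n : ℕ} (φ : FreeGroup (Fin n) →* G)

/-- the value of a letter -/
def lval (x : Fin n × Bool) : G := cond x.2 (φ (FreeGroup.of x.1)) (φ (FreeGroup.of x.1))⁻¹

/-- the letters `x_i^{±1}` and `1` -/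
def letters : Set G := insert 1 (Set.range (lval φ))

lemma letters_finite : (letters φ).Finite := (Set.finite_range _).insert _

lemma one_mem_letters : (1 : G) ∈ letters φ := Set.mem_insert _ _

lemma lval_mem (x : Fin n × Bool) : lval φ x ∈ letters φ := Set.mem_insert_of_mem _ ⟨x, rfl⟩

lemma lval_not (i : Fin n) (b : Bool) : lval φ (i, !b) = (lval φ (i, b))⁻¹ := by
  cases b <;> simp [lval]

lemma inv_mem_letters {x : G} (h : x ∈ letters φ) : x⁻¹ ∈ letters φ := by
  rcases h with rfl | ⟨⟨i, b⟩, rfl⟩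
  · simpa using one_mem_letters φ
  · rw [← lval_not]; exact lval_mem φ _

lemma mk_val (L : List (Fin n × Bool)) : φ (FreeGroup.mk L) = (L.map (lval φ)).prod := by
  induction L with
  | nil => rw [List.map_nil, List.prod_nil, ← FreeGroup.one_eq_mk, map_one]
  | cons x L ih =>
    have e : FreeGroup.mk (x :: L) = FreeGroup.mk [x] * FreeGroup.mk L := by
      rw [FreeGroup.mul_mk]; rfl
    rw [e, map_mul, ih, List.map_cons, List.prod_cons]
    congr 1
    obtain ⟨i, b⟩ := x
    cases b
    · have : FreeGroup.mk [(i, false)] = (FreeGroup.of i)⁻¹ := by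
        rw [FreeGroup.of, FreeGroup.inv_mk]; rfl
      rw [this, map_inv]; rfl
    · rfl

variable {H : Type} [Group H]

/-- telescoping along a word of length at most `r` -/
lemma hol_short {X : Set G} (h1 : (1 : G) ∈ X) {r : ℕ} (hr : 1 ≤ r) {c : G → G → H}
    (hc : Cocyc (X ^ r) Set.univ c) (g : G) (L : List G) (hL : ∀ x ∈ L, x ∈ X)
    (hlen : L.length ≤ r) : hol c g L = c g (g * L.prod) := by
  have h1r : (1 : G) ∈ X ^ r := Set.one_mem_pow h1
  have hX : X ⊆ X ^ r := by simpa using pow_mono' h1 hr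
  induction L using List.reverseRecOn with
  | nil => simp [hc.self h1r (Set.mem_univ g)]
  | append_singleton L x ih =>
    have hL' : ∀ y ∈ L, y ∈ X := fun y hy => hL y (by simp [hy])
    have hx : x ∈ X := hL x (by simp)
    have hlen' : L.length + 1 ≤ r := by simpa using hlen
    rw [hol_append, ih hL' (by omega), hol_cons, hol_nil, mul_one, List.prod_append,
      List.prod_singleton, ← mul_assoc]
    refine hc g (Set.mem_univ _) (g * L.prod) (Set.mem_univ _) (g * L.prod * x)
      (Set.mem_univ _) ?_ ?_ ?_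
    · rw [inv_mul_cancel_left]
      exact pow_mono' h1 (by omega) (mem_pow_of_word L hL')
    · rw [inv_mul_cancel_left]
      exact hX hx
    · rw [mul_assoc g, inv_mul_cancel_left]
      have := mem_pow_of_word (L ++ [x]) hL
      rw [List.prod_append, List.prod_singleton] at this
      exact pow_mono' h1 (by simpa using hlen) this

/-- the permutation of `G × H` given by a letter -/
def perm (x : G) (c : G → G → H) (hsymm : ∀ g, c g (g * x) * c (g * x) g = 1) :
    Equiv.Perm (G × H) where
  toFun p := (p.1 * x, p.2 * c p.1 (p.1 * x))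
  invFun p := (p.1 * x⁻¹, p.2 * c p.1 (p.1 * x⁻¹))
  left_inv := by
    rintro ⟨g, a⟩
    simp only [mul_inv_cancel_right]
    rw [mul_assoc, hsymm, mul_one]
  right_inv := by
    rintro ⟨g, a⟩
    simp only [inv_mul_cancel_right]
    have h := hsymm (g * x⁻¹)
    rw [inv_mul_cancel_right] at h
    have h' : c g (g * x⁻¹) * c (g * x⁻¹) g = 1 := by
      rw [mul_eq_one_iff_eq_inv] at h ⊢
      rw [h, inv_inv]
    rw [mul_assoc, h', mul_one]

/-- the action of the free group on `G × H` -/
def act (c : G → G → H) (hsymm : ∀ i : Fin n, ∀ g, c g (g * φ (FreeGroup.of i)) *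
    c (g * φ (FreeGroup.of i)) g = 1) : FreeGroup (Fin n) →* (Equiv.Perm (G × H))ᵐᵒᵖ :=
  FreeGroup.lift fun i => MulOpposite.op (perm (φ (FreeGroup.of i)) c (hsymm i))

lemma act_mk (c : G → G → H) (hsymm : ∀ i : Fin n, ∀ g, c g (g * φ (FreeGroup.of i)) *
    c (g * φ (FreeGroup.of i)) g = 1) (L : List (Fin n × Bool)) (g : G) (a : H) :
    (act φ c hsymm (FreeGroup.mk L)).unop (g, a) =
      (g * (L.map (lval φ)).prod, a * hol c g (L.map (lval φ))) := by
  induction L generalizing g a with
  | nil =>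
    rw [← FreeGroup.one_eq_mk, map_one]
    simp
  | cons x L ih =>
    have e : FreeGroup.mk (x :: L) = FreeGroup.mk [x] * FreeGroup.mk L := by
      rw [FreeGroup.mul_mk]; rfl
    have e1 : (act φ c hsymm (FreeGroup.mk [x])).unop (g, a) =
        (g * lval φ x, a * c g (g * lval φ x)) := by
      obtain ⟨i, b⟩ := x
      cases b
      · have : FreeGroup.mk [(i, false)] = (FreeGroup.of i)⁻¹ := by
          rw [FreeGroup.of, FreeGroup.inv_mk]; rfl
        rw [this, map_inv, act, FreeGroup.lift_apply_of, ← MulOpposite.op_inv,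
          MulOpposite.unop_op]
        rfl
      · have : FreeGroup.mk [(i, true)] = FreeGroup.of i := rfl
        rw [this, act, FreeGroup.lift_apply_of, MulOpposite.unop_op]
        rfl
    rw [e, map_mul, MulOpposite.unop_mul, Equiv.Perm.mul_apply, e1, ih]
    simp [mul_assoc]

end fpr

theorem fpr : FprStatement := by
  intro G _ hG
  obtain ⟨n, φ, hφ, R, hR, hRk⟩ := hG.out
  have hword : ∀ g : G, ∃ L : List (Fin n × Bool), (L.map (lval φ)).prod = g := by
    intro g
    obtain ⟨w, rfl⟩ := hφ g
    refine ⟨w.toWord, ?_⟩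
    rw [← mk_val, FreeGroup.mk_toWord]
  choose W hW using hword
  refine ⟨⟨letters φ, letters_finite φ, fun g _ h _ => ?_⟩, fun E hE => ?_⟩
  · rw [conn_iff (Set.mem_univ _)]
    refine ⟨(W (g⁻¹ * h)).map (lval φ), inPath_iff.2 ⟨?_, fun _ _ => Set.mem_univ _⟩, ?_⟩
    · intro x hx
      obtain ⟨y, -, rfl⟩ := List.mem_map.1 hx
      exact lval_mem φ y
    · rw [hW]; simp
  · obtain ⟨b, hb⟩ := (hE.image (fun g => (W g).length)).bddAbove
    obtain ⟨b', hb'⟩ := (hR.image (fun ρ => ρ.toWord.length)).bddAbove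
    let r : ℕ := b + b' + 1
    have h1X : (1 : G) ∈ letters φ := one_mem_letters φ
    refine ⟨letters φ ^ r, finite_pow' (letters_finite φ) r, fun H _ c hc => ?_⟩
    have h1r : (1 : G) ∈ letters φ ^ r := Set.one_mem_pow h1X
    have hXr : letters φ ⊆ letters φ ^ r := by
      simpa using pow_mono' h1X (show 1 ≤ r by omega)
    have hsymm : ∀ i : Fin n, ∀ g, c g (g * φ (FreeGroup.of i)) *
        c (g * φ (FreeGroup.of i)) g = 1 := by
      intro i g
      have hi : φ (FreeGroup.of i) ∈ letters φ := lval_mem φ (i, true)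
      rw [hc.symm h1r (Set.mem_univ g) (Set.mem_univ (g * φ (FreeGroup.of i)))
        (by rw [inv_mul_cancel_left]; exact hXr hi)
        (by
          rw [mul_inv_rev, mul_assoc, inv_mul_cancel, mul_one]
          exact hXr (inv_mem_letters φ hi)), mul_inv_cancel]
    have hlet : ∀ L : List (Fin n × Bool), ∀ x ∈ L.map (lval φ), x ∈ letters φ := by
      intro L x hx
      obtain ⟨y, -, rfl⟩ := List.mem_map.1 hx
      exact lval_mem φ y
    have hker : φ.ker ≤ (act φ c hsymm).ker := by
      rw [← hRk]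
      refine Subgroup.normalClosure_le_normal ?_
      intro ρ hρ
      rw [SetLike.mem_coe, MonoidHom.mem_ker]
      apply MulOpposite.unop_injective
      ext1 ⟨g, a⟩
      have hρ1 : φ ρ = 1 := by
        have : ρ ∈ φ.ker := by rw [← hRk]; exact Subgroup.subset_normalClosure hρ
        exact this
      have hval : (ρ.toWord.map (lval φ)).prod = 1 := by
        rw [← mk_val, FreeGroup.mk_toWord, hρ1]
      have h2 : ρ.toWord.length ≤ b' := hb' ⟨ρ, hρ, rfl⟩
      have h3 := act_mk φ c hsymm ρ.toWord g a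
      rw [FreeGroup.mk_toWord, hval, hol_short h1X (by omega) hc g _ (hlet _)
        (by rw [List.length_map]; omega), hval, mul_one, hc.self h1r (Set.mem_univ g),
        mul_one] at h3
      rw [h3]
      simp
    have hact : ∀ u v : FreeGroup (Fin n), φ u = φ v → act φ c hsymm u = act φ c hsymm v := by
      intro u v huv
      have : u⁻¹ * v ∈ φ.ker := by
        rw [MonoidHom.mem_ker, map_mul, map_inv, huv, inv_mul_cancel]
      have h4 := hker this
      rw [MonoidHom.mem_ker, map_mul, map_inv, inv_mul_eq_one] at h4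
      exact h4
    let f : G → H := fun g => ((act φ c hsymm (FreeGroup.mk (W g))).unop (1, 1)).2
    have hf1 : ∀ g, (act φ c hsymm (FreeGroup.mk (W g))).unop (1, 1) = (g, f g) := by
      intro g
      have h5 := act_mk φ c hsymm (W g) 1 1
      rw [one_mul, hW] at h5
      refine Prod.ext ?_ rfl
      rw [h5]
    refine ⟨f, fun g _ h _ hgh => ?_⟩
    have h6 : act φ c hsymm (FreeGroup.mk (W h)) =
        act φ c hsymm (FreeGroup.mk (W g) * FreeGroup.mk (W (g⁻¹ * h))) := by
      apply hact
      rw [map_mul, mk_val, mk_val, mk_val, hW, hW, hW]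
      simp
    have h7 := hf1 h
    rw [h6, map_mul, MulOpposite.unop_mul, Equiv.Perm.mul_apply, hf1 g, act_mk, hW] at h7
    have h8 : (W (g⁻¹ * h)).length ≤ b := hb ⟨_, hgh, rfl⟩
    rw [hol_short h1X (by omega) hc g _ (hlet _) (by rw [List.length_map]; omega), hW,
      mul_inv_cancel_left] at h7
    have h9 : f g * c g h = f h := congrArg Prod.snd h7
    rw [← h9]
    simp

end Pool.Agent.Lib.MP_b1a3a4_al.MVS.HO.H68
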