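import Pool.Agent.Lib.MP_b1a3a4_al.MVS.HO.Iface

/-!
# HALFC (10.10): half-space statements at all scales imply `Sig2`
-/

set_option linter.all false

namespace Pool.Agent.Lib.MP_b1a3a4_al.MVS.HO.H68

open Pool.Agent.Lib.MP_b1a3a4_al.MVS.HO Pool.Agent.Lib.MP_b1a3a4_al.MVS

theorem halfc (h1 : LagStatement) : HalfcStatement := by
  intro G _ χ hχ hB
  obtain ⟨hcsc, hcc⟩ := h1 G χ hχ
  refine ⟨hcc ?_, hcsc ?_⟩
  · obtain ⟨E, -, hE, D, hD⟩ := hB ∅ Set.finite_empty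
    refine ⟨E, D, hE.fin, fun g hg h hh => hD.1 0 g h ?_ ?_⟩
    · rw [mem_up] at hg; linarith
    · rw [mem_up] at hh; linarith
  · intro B hBf
    obtain ⟨E, hBE, hE, D, hD⟩ := hB B hBf
    refine ⟨E, D, hE.fin, fun H _ c hc => ?_⟩
    have := hD.2 0 H c hc
    rw [zero_add] at this
    exact this.mono hBE le_rfl

end Pool.Agent.Lib.MP_b1a3a4_al.MVS.HO.H68
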