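import Pool.Agent.Lib.MP_b1a3a4_al.MVS.HO.Iface

/-!
# HIGH (10.6): fixed loops at high vertices
-/

set_option linter.all false

namespace Pool.Agent.Lib.MP_b1a3a4_al.MVS.HO.H68

open Pool.Agent.Lib.MP_b1a3a4_al.MVS.HO Pool.Agent.Lib.MP_b1a3a4_al.MVS

/-- a finite set is bounded below in the direction of `χ` -/
lemma finite_below {G : Type} [Group G] (χ : Chr G) {F : Set G} (hF : F.Finite) :
    ∃ T : ℝ, 0 ≤ T ∧ ∀ f ∈ F, -T ≤ val χ f := by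
  obtain ⟨b, hb⟩ := (hF.image (val χ)).bddBelow
  refine ⟨max 0 (-b), le_max_left _ _, fun f hf => ?_⟩
  have h1 : b ≤ val χ f := hb ⟨f, hf, rfl⟩
  have h2 : -b ≤ max 0 (-b) := le_max_right _ _
  linarith

theorem high (h1 : CarrStatement) : HighStatement := by
  intro G _ E hE χ L hL hL'
  have key : ∀ ℓ ∈ L, ∃ T : ℝ, 0 ≤ T ∧ ∀ (h : ℝ) (u : G), h + T ≤ val χ u →
      SameHol E (up (val χ) h) u ℓ.1 ℓ.2 := by
    intro ℓ hℓ
    obtain ⟨ha, hb, hp⟩ := hL' ℓ hℓ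
    obtain ⟨F, hF, -, hFs⟩ := h1 G E Set.univ 1 ℓ.1 ℓ.2 (hE.sameHol ha hb hp)
    obtain ⟨T, hT0, hT⟩ := finite_below χ hF
    refine ⟨T, hT0, fun h u hu => ?_⟩
    have h2 := hFs.translate (Z' := up (val χ) h) u (fun x hx => ?_)
    · simpa using h2
    · rw [mem_up, val_mul]
      have := hT x hx
      linarith
  choose! T hT0 hT using key
  obtain ⟨b, hb⟩ := (hL.image T).bddAbove
  refine ⟨max 0 b, le_max_left _ _, fun ℓ hℓ h u hu => hT ℓ hℓ h u ?_⟩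
  have h3 : T ℓ ≤ b := hb ⟨ℓ, hℓ, rfl⟩
  have h4 : b ≤ max 0 b := le_max_right _ _
  linarith

end Pool.Agent.Lib.MP_b1a3a4_al.MVS.HO.H68
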