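import Pool.Agent.Lib.MP_b1a3a4_al.MVS.HO.Iface

/-!
# SCALE (10.4): every finite set lies in a good scale
-/

set_option linter.all false

namespace Pool.Agent.Lib.MP_b1a3a4_al.MVS.HO.H68

open Pool.Agent.Lib.MP_b1a3a4_al.MVS.HO Pool.Agent.Lib.MP_b1a3a4_al.MVS
open scoped Pointwise

/-- products of words in `X` -/
lemma mem_pow_of_word {G : Type} [Group G] {X : Set G} :
    ∀ (w : List G), (∀ x ∈ w, x ∈ X) → w.prod ∈ X ^ w.length
  | [], _ => by simp
  | x :: w, h => by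
    rw [List.prod_cons, List.length_cons, pow_succ']
    exact Set.mul_mem_mul (h x (by simp)) (mem_pow_of_word w fun y hy => h y (by simp [hy]))

/-- words for elements in powers -/
lemma word_of_mem_pow {G : Type} [Group G] {X : Set G} :
    ∀ (n : ℕ) (g : G), g ∈ X ^ n → ∃ w : List G, (∀ x ∈ w, x ∈ X) ∧ w.length = n ∧ w.prod = g
  | 0, g, h => ⟨[], by simp, rfl, by simpa using h.symm⟩
  | n + 1, g, h => by
    rw [pow_succ'] at h
    obtain ⟨x, hx, y, hy, rfl⟩ := h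
    obtain ⟨w, hw, hl, hp⟩ := word_of_mem_pow n y hy
    refine ⟨x :: w, ?_, by simp [hl], by simp [hp]⟩
    intro z hz
    rcases List.mem_cons.1 hz with rfl | hz
    · exact hx
    · exact hw z hz

lemma pow_mono' {G : Type} [Group G] {X : Set G} (h1 : (1 : G) ∈ X) {m n : ℕ} (h : m ≤ n) :
    X ^ m ⊆ X ^ n := Set.pow_subset_pow_right h1 h

lemma finite_pow' {G : Type} [Group G] {X : Set G} (h : X.Finite) : ∀ n : ℕ, (X ^ n).Finite
  | 0 => by rw [pow_zero]; exact Set.finite_one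
  | n + 1 => by rw [pow_succ]; exact (finite_pow' h n).mul h

/-- telescoping -/
lemma telescope {G H : Type} [Group G] [Group H] {X : Set G} (h1 : (1 : G) ∈ X) {r : ℕ}
    (hr : 1 ≤ r) {c : G → G → H} (hc : Cocyc (X ^ r) Set.univ c) {f : G → H}
    (hf : ∀ g ∈ (Set.univ : Set G), ∀ h ∈ (Set.univ : Set G), g⁻¹ * h ∈ X →
      c g h = (f g)⁻¹ * f h) :
    ∀ l ≤ r, ∀ g h : G, g⁻¹ * h ∈ X ^ l → c g h = (f g)⁻¹ * f h := by
  have h1r : (1 : G) ∈ X ^ r := Set.one_mem_pow h1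
  have hX : X ⊆ X ^ r := by simpa using pow_mono' h1 hr
  intro l
  induction l with
  | zero =>
    intro _ g h hgh
    have : g = h := by
      rw [pow_zero, Set.mem_one, inv_mul_eq_one] at hgh
      exact hgh
    subst this
    rw [hc.self h1r (Set.mem_univ g)]
    simp
  | succ l ih =>
    intro hl g h hgh
    rw [pow_succ] at hgh
    obtain ⟨y, hy, x, hx, hyx⟩ := hgh
    have hyx' : y * x = g⁻¹ * h := hyx
    have hh : h = g * y * x := by rw [mul_assoc, hyx']; simp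
    have e1 := hc g (Set.mem_univ _) (g * y) (Set.mem_univ _) h (Set.mem_univ _)
      (by simpa using pow_mono' h1 (by omega) hy) (by rw [hh, inv_mul_cancel_left]; exact hX hx)
      (by
        rw [← hyx']
        have : y * x ∈ X ^ (l + 1) := by rw [pow_succ]; exact Set.mul_mem_mul hy hx
        exact pow_mono' h1 hl this)
    rw [← e1, ih (by omega) g (g * y) (by simpa using hy),
      hf (g * y) (Set.mem_univ _) h (Set.mem_univ _) (by rw [hh, inv_mul_cancel_left]; exact hx)]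
    simp [mul_assoc]

theorem scale : ScaleStatement := by
  intro G _ hG B hB
  obtain ⟨⟨E₀, hE₀, hconn⟩, hsc⟩ := hG
  let Y : Set G := B ∪ E₀ ∪ {1}
  have hY : Y.Finite := (hB.union hE₀).union (Set.finite_singleton 1)
  let X : Set G := Y ∪ Y⁻¹
  have hX : X.Finite := hY.union hY.inv
  have h1X : (1 : G) ∈ X := Or.inl (Or.inr rfl)
  have hXinv : X⁻¹ = X := by
    show (Y ∪ Y⁻¹)⁻¹ = Y ∪ Y⁻¹
    rw [Set.union_inv, inv_inv, Set.union_comm]
  have hgen : ∀ g : G, ∃ w : List G, (∀ x ∈ w, x ∈ X) ∧ w.prod = g := by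
    intro g
    have h2 := hconn 1 (Set.mem_univ _) g (Set.mem_univ _)
    obtain ⟨w, hw, hw'⟩ := (conn_iff (Set.mem_univ _)).1 h2
    refine ⟨w, fun x hx => Or.inl (Or.inl (Or.inr (hw.letters x hx))), by simpa using hw'⟩
  obtain ⟨E', hE', hcob⟩ := hsc X hX
  have hr : ∃ r : ℕ, 1 ≤ r ∧ E' ⊆ X ^ r := by
    choose w hw hwp using hgen
    obtain ⟨b, hb⟩ := (hE'.image (fun g => (w g).length)).bddAbove
    refine ⟨b + 1, by omega, fun g hg => ?_⟩
    have h3 : (w g).length ≤ b := hb ⟨g, hg, rfl⟩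
    have h4 := mem_pow_of_word (w g) (hw g)
    rw [hwp] at h4
    exact pow_mono' h1X (by omega) h4
  obtain ⟨r, hr1, hr⟩ := hr
  have hXr : X ⊆ X ^ r := by simpa using pow_mono' h1X hr1
  refine ⟨X ^ r, fun b hb => hXr (Or.inl (Or.inl (Or.inl hb))), finite_pow' hX r, Set.one_mem_pow h1X,
    ?_, ?_, ?_⟩
  · intro e he
    have : e⁻¹ ∈ (X ^ r)⁻¹ := by simpa using he
    rwa [← inv_pow, hXinv] at this
  · intro g
    obtain ⟨w, hw, hp⟩ := hgen g
    exact ⟨w, fun x hx => hXr (hw x hx), hp⟩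
  · intro H _ c hc
    obtain ⟨f, hf⟩ := hcob H c (hc.mono hr le_rfl)
    exact ⟨f, fun g _ h _ hgh => telescope h1X hr1 hc hf r le_rfl g h hgh⟩

end Pool.Agent.Lib.MP_b1a3a4_al.MVS.HO.H68
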