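import Pool.Agent.Lib.MP_b1a3a4_al.MVS.HO.Iface

/-!
# SHX (10.5): change of scale for `SameHol`
-/

set_option linter.all false

namespace Pool.Agent.Lib.MP_b1a3a4_al.MVS.HO.H68

open Pool.Agent.Lib.MP_b1a3a4_al.MVS.HO Pool.Agent.Lib.MP_b1a3a4_al.MVS

lemma hol_eq_of_edges {G H : Type} [Group G] [Group H] {E Z : Set G} {c c₁ : G → G → H}
    (h : ∀ g ∈ Z, ∀ k ∈ Z, g⁻¹ * k ∈ E → c₁ g k = c g k) :
    ∀ (w : List G) (g : G), InPath E Z g w → hol c₁ g w = hol c g w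
  | [], _, _ => rfl
  | x :: w, g, hp => by
    rw [hol_cons, hol_cons, hol_eq_of_edges h w _ hp.2.2,
      h g hp.1 (g * x) hp.2.2.start (by simpa using hp.2.1)]

theorem shx (h1 : ExtStatement) : ShxStatement := by
  intro G _ E hE χ E' hE'
  obtain ⟨F, hF, -, hext⟩ := h1 G E hE E' hE'
  have hd : ∃ d : ℝ, 0 ≤ d ∧ ∀ f ∈ F, -d ≤ val χ f := by
    obtain ⟨b, hb⟩ := (hF.image (val χ)).bddBelow
    refine ⟨max 0 (-b), le_max_left _ _, fun f hf => ?_⟩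
    have h1 : b ≤ val χ f := hb ⟨f, hf, rfl⟩
    have h2 : -b ≤ max 0 (-b) := le_max_right _ _
    linarith
  obtain ⟨d, hd0, hd⟩ := hd
  refine ⟨d, hd0, fun h u w w' hw hw' hs H _ c hc => ?_⟩
  obtain ⟨c₁, hc₁, hcc⟩ := hext _ H c hc
  have hsub : up (val χ) h ⊆ {g | ∀ f ∈ F, g * f ∈ up (val χ) (h - d)} := by
    intro g hg f hf
    rw [mem_up] at hg
    rw [mem_up, val_mul]
    have := hd f hf
    linarith
  have hedge : ∀ g ∈ up (val χ) h, ∀ k ∈ up (val χ) h, g⁻¹ * k ∈ E → c₁ g k = c g k :=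
    fun g hg k hk hgk => hcc g k (hsub hg) (hsub hk) hgk
  rw [← hol_eq_of_edges hedge w u hw, ← hol_eq_of_edges hedge w' u hw']
  exact hs H c₁ (hc₁.mono le_rfl hsub)

end Pool.Agent.Lib.MP_b1a3a4_al.MVS.HO.H68
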